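import Pool.Agent.H37.CTL.Stmts

/-!
# Board ctl (MP_b57703), row UMR

Artin-Schreier coordinates with values in a finite field.
-/

set_option autoImplicit false
set_option linter.unusedSectionVars false

namespace Pool.CND

open Finset

namespace UMRH

/-! ## The trace functionals -/

section trace

variable (p : ℕ) [Fact p.Prime] {F : Type} [Field F] [Algebra (ZMod p) F] [Finite F] {r : ℕ}

/-- the additive functional `Tr(∑ a_i v_i)` -/
noncomputable def psi (a v : Fin r → F) : ZMod p := Algebra.trace (ZMod p) F (∑ i, a i * v i)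

theorem psi_add (a v w : Fin r → F) : psi p a (v + w) = psi p a v + psi p a w := by
  unfold psi
  rw [← map_add, ← Finset.sum_add_distrib]
  congr 1
  exact Finset.sum_congr rfl fun i _ => by rw [Pi.add_apply, mul_add]

theorem psi_zero_left (v : Fin r → F) : psi p (0 : Fin r → F) v = 0 := by
  unfold psi
  simp

theorem psi_zero (a : Fin r → F) : psi p a 0 = 0 := by
  unfold psi
  simp

theorem psi_neg (a v : Fin r → F) : psi p a (-v) = -psi p a v := by
  have h := psi_add p a v (-v)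
  rw [add_neg_cancel, psi_zero] at h
  linear_combination -h

theorem psi_dual (S : AddSubgroup (Fin r → F)) (v : Fin r → F) (hv : v ∉ S) :
    ∃ a : Fin r → F, (∀ s ∈ S, psi p a s = 0) ∧ psi p a v ≠ 0 := by
  classical
  obtain ⟨f, hf, hle⟩ := Submodule.exists_le_ker_of_notMem (K := ZMod p)
    (p := AddSubgroup.toZModSubmodule p S) (v := v) hv
  have hnd := traceForm_nondegenerate (ZMod p) F
  have h1 : ∀ i : Fin r, ∃ x : F, ∀ y : F,
      Algebra.trace (ZMod p) F (x * y) = f (Pi.single i y) := by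
    intro i
    refine ⟨((Algebra.traceForm (ZMod p) F).toDual hnd).symm
      (f.comp (LinearMap.single (ZMod p) (fun _ : Fin r => F) i)), fun y => ?_⟩
    have h2 := LinearMap.BilinForm.toDual_def (B := Algebra.traceForm (ZMod p) F) hnd
      (m := ((Algebra.traceForm (ZMod p) F).toDual hnd).symm
        (f.comp (LinearMap.single (ZMod p) (fun _ : Fin r => F) i))) (n := y)
    rw [LinearEquiv.apply_symm_apply] at h2
    rw [Algebra.traceForm_apply] at h2
    rw [← h2]
    rfl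
  choose a ha using h1
  have h2 : ∀ w : Fin r → F, psi p a w = f w := by
    intro w
    unfold psi
    rw [map_sum]
    have h3 : w = ∑ i, Pi.single i (w i) := (LinearMap.sum_single_apply (fun _ => F) w).symm
    conv_rhs => rw [h3, map_sum]
    exact Finset.sum_congr rfl fun i _ => ha i (w i)
  refine ⟨a, fun s hs => ?_, ?_⟩
  · rw [h2]
    exact hle hs
  · rw [h2]
    exact hf

theorem trace_pow {f : ℕ} (hF : Nat.card F = p ^ f) (x : F) :
    algebraMap (ZMod p) F (Algebra.trace (ZMod p) F x) = ∑ i ∈ range f, x ^ (p ^ i) := by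
  have h1 := FiniteField.algebraMap_trace_eq_sum_pow (ZMod p) F x
  have hp : 1 < p := (Fact.out : p.Prime).one_lt
  have h2 : Module.finrank (ZMod p) F = f := by
    have h3 := Module.natCard_eq_pow_finrank (K := ZMod p) (V := F)
    rw [hF, Nat.card_zmod] at h3
    exact (Nat.pow_right_injective hp h3).symm
  rw [h2, Nat.card_zmod] at h1
  exact h1

end trace

/-! ## The Artin-Schreier generators -/

theorem as_ord {k L : Type} [Field k] [Field L] [Algebra k L] (P : Place k L) {p : ℕ}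
    (hp : 2 ≤ p) {Y z : L} (hz : Y ^ p - Y = z) (hz0 : z ≠ 0)
    (hneg : P.ord z < 0) : Y ≠ 0 ∧ p * P.ord Y = P.ord z := by
  have hY : Y ≠ 0 := by
    rintro rfl
    rw [zero_pow (by omega), sub_zero] at hz
    exact hz0 hz.symm
  refine ⟨hY, ?_⟩
  have h : P.ord Y < 0 := by
    by_contra h
    rw [not_lt] at h
    have h1 : P.Ge (Y ^ p) 0 := Or.inr (by
      rw [P.ord_pow hY]
      positivity)
    have h2 : P.Ge z 0 := by
      rw [← hz]
      exact P.ge_sub h1 (Or.inr h)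
    have := (P.ge_iff hz0 0).1 h2
    omega
  have h1 : P.Ge (-Y) (P.ord (Y ^ p) + 1) := by
    refine P.ge_neg (Or.inr ?_)
    rw [P.ord_pow hY]
    have : (2 : ℤ) ≤ p := by exact_mod_cast hp
    nlinarith
  obtain ⟨h2, h3⟩ := P.ord_add_of_lt (pow_ne_zero p hY) h1
  rw [← sub_eq_add_neg, hz] at h2 h3
  rw [← P.ord_pow hY, ← h3]

theorem as_gen {p f q r : ℕ} [Fact p.Prime] {k F L G : Type} [Field k] [Field F] [Algebra F k]
    [Field L] [Algebra k L] [Group G] [Algebra (ZMod p) F] [Finite F] [CharP L p]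
    (hq : q = p ^ f) (hF : Nat.card F = q) (ρ : G →* (L ≃ₐ[k] L)) (W : Subgroup G)
    (c : G → Fin r → F) (Z : Fin r → L)
    (hact : ∀ g ∈ W, ∀ i, ρ g (Z i) = Z i + cst k F L (c g i)) (a : Fin r → F) :
    ∃ Y : L, Y ^ p - Y = ∑ i, cst k F L (a i) * (Z i ^ q - Z i) ∧
      ∀ g ∈ W, ρ g Y = Y +
        algebraMap k L (algebraMap F k (algebraMap (ZMod p) F (psi p a (c g)))) := by
  obtain ⟨s, hs⟩ : ∃ s : L, s = ∑ j, cst k F L (a j) * Z j := ⟨_, rfl⟩
  have hcard : Fintype.card (Fin r) = r := Fintype.card_fin r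
  have hpow : ∀ x : F, x ^ (p ^ f) = x := by
    intro x
    have : Fintype F := Fintype.ofFinite F
    have h := FiniteField.pow_card x
    rwa [← Nat.card_eq_fintype_card, hF, hq] at h
  refine ⟨∑ i ∈ range f, s ^ (p ^ i), ?_, fun g hg => ?_⟩
  · rw [sum_pow_char, ← Finset.sum_sub_distrib]
    have h1 : ∀ i ∈ range f, (s ^ (p ^ i)) ^ p - s ^ (p ^ i) =
        s ^ (p ^ (i + 1)) - s ^ (p ^ i) := fun i _ => by rw [← pow_mul, ← pow_succ]
    rw [Finset.sum_congr rfl h1, Finset.sum_range_sub (fun i => s ^ (p ^ i)), pow_zero, pow_one,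
      hs, sum_pow_char_pow, ← Finset.sum_sub_distrib]
    refine Finset.sum_congr rfl fun j _ => ?_
    have h2 : (cst k F L (a j)) ^ (p ^ f) = cst k F L (a j) := by
      unfold cst
      rw [← map_pow, ← map_pow, hpow]
    rw [mul_pow, h2, hq]
    ring
  · have h1 : ρ g s = s + cst k F L (∑ j, a j * c g j) := by
      rw [hs, map_sum]
      unfold cst
      rw [map_sum, map_sum, ← Finset.sum_add_distrib]
      refine Finset.sum_congr rfl fun j _ => ?_
      rw [map_mul, hact g hg, AlgEquiv.commutes, map_mul, map_mul]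
      unfold cst
      ring
    rw [map_sum]
    unfold psi
    rw [trace_pow p (hF.trans hq), map_sum, map_sum, ← Finset.sum_add_distrib]
    refine Finset.sum_congr rfl fun i _ => ?_
    rw [map_pow, h1, add_pow_char_pow]
    unfold cst
    rw [map_pow, map_pow]

/-! ## Group theory -/

section grp

variable {G : Type} [Group G] [Fintype G]

theorem card_ker {M : Type} [Group M] (W N : Subgroup G) (φ : W →* M)
    (hs : Function.Surjective φ) (hN : ∀ g, g ∈ N ↔ ∃ h : g ∈ W, φ ⟨g, h⟩ = 1) :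
    Nat.card W = Nat.card M * Nat.card N := by
  have h2 : Nat.card N = Nat.card φ.ker := by
    have h3 : N = φ.ker.map W.subtype := by
      ext g
      rw [hN, Subgroup.mem_map]
      constructor
      · rintro ⟨h, h4⟩
        exact ⟨⟨g, h⟩, h4, rfl⟩
      · rintro ⟨x, hx, rfl⟩
        exact ⟨x.2, hx⟩
    rw [h3]
    exact (Nat.card_congr
      (Subgroup.equivMapOfInjective φ.ker W.subtype W.subtype_injective).toEquiv).symm
  have h3 := Subgroup.index_mul_card φ.ker
  have h4 : Nat.card φ.range = Nat.card M := by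
    rw [MonoidHom.range_eq_top.2 hs]
    exact Nat.card_congr Subgroup.topEquiv.toEquiv
  rw [Subgroup.index_ker, h4] at h3
  rw [h2, h3]

open scoped Classical in
theorem sm_coset (b : G → ℤ) (A : Subgroup G) (g : G) :
    sm b {x | g⁻¹ * x ∈ A} = ∑ n ∈ univ.filter (fun n => n ∈ A), b (g * n) := by
  unfold sm
  symm
  refine Finset.sum_bij' (fun n _ => g * n) (fun x _ => g⁻¹ * x) ?_ ?_ ?_ ?_ ?_
  · intro n hn
    simp only [Finset.mem_filter, Finset.mem_univ, true_and, Set.mem_ofPred_eq] at hn ⊢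
    rwa [inv_mul_cancel_left]
  · intro x hx
    simpa using hx
  · intro n _
    simp
  · intro x _
    simp
  · intro n _
    rfl

open scoped Classical in
theorem card_filter (A : Subgroup G) :
    ((univ.filter fun n : G => n ∈ A).card : ℤ) = Nat.card A := by
  rw [Nat.card_eq_fintype_card, Fintype.card_subtype]

theorem sm_const (D : ℤ) (W N : Subgroup G) (hN : N ≤ W) :
    sm (fun _ : G => D) {g | g ∈ W ∧ g ∉ N} = (Nat.card W - Nat.card N : ℤ) * D := by
  classical
  unfold sm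
  rw [Finset.sum_const, nsmul_eq_mul]
  congr 1
  have h5 : (univ.filter fun g : G => g ∈ {g | g ∈ W ∧ g ∉ N}) =
      (univ.filter fun g => g ∈ W) \ (univ.filter fun g => g ∈ N) := by
    ext g
    simp
  have h6 : (univ.filter fun g : G => g ∈ N) ⊆ univ.filter fun g => g ∈ W := by
    intro g hg
    exact Finset.mem_filter.2 ⟨mem_univ _, hN (Finset.mem_filter.1 hg).2⟩
  have h7 := Finset.card_sdiff_add_card_eq_card h6
  rw [← card_filter W, ← card_filter N, ← h7]
  push_cast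
  rw [add_sub_cancel_right]
  congr 2
  ext g
  simp

/-- the sum over the coset of a smaller subgroup -/
theorem sum_double (b : G → ℤ) (N A : Subgroup G) (hNA : N ≤ A) (g : G) :
    sm (fun x => sm b {y | x⁻¹ * y ∈ N}) {x | g⁻¹ * x ∈ A} =
      Nat.card N * sm b {x | g⁻¹ * x ∈ A} := by
  classical
  rw [sm_coset _ A g]
  have h1 : ∀ n ∈ univ.filter (fun n : G => n ∈ A), sm b {y | (g * n)⁻¹ * y ∈ N} =
      ∑ m ∈ univ.filter (fun m : G => m ∈ N), b (g * n * m) := fun n _ => sm_coset b N (g * n)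
  rw [Finset.sum_congr rfl h1, Finset.sum_comm]
  have h2 : ∀ m ∈ univ.filter (fun m : G => m ∈ N),
      ∑ n ∈ univ.filter (fun n : G => n ∈ A), b (g * n * m) = sm b {x | g⁻¹ * x ∈ A} := by
    intro m hm
    have hmA : m ∈ A := hNA (Finset.mem_filter.1 hm).2
    rw [sm_coset b A g]
    refine Finset.sum_bij' (fun n _ => n * m) (fun n _ => n * m⁻¹) ?_ ?_ ?_ ?_ ?_
    · intro n hn
      simp only [Finset.mem_filter, Finset.mem_univ, true_and] at hn ⊢
      exact A.mul_mem hn hmA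
    · intro n hn
      simp only [Finset.mem_filter, Finset.mem_univ, true_and] at hn ⊢
      exact A.mul_mem hn (A.inv_mem hmA)
    · intro n _
      simp
    · intro n _
      simp
    · intro n _
      rw [mul_assoc]
  rw [Finset.sum_congr rfl h2, Finset.sum_const, nsmul_eq_mul, card_filter]

variable {V : Type} [AddCommGroup V]

/-- the values of `c` on the elements of large depth -/
def Vj (b : G → ℤ) (W : Subgroup G) (c : G → V) (hUM : UM b W) (hc1 : c 1 = 0)
    (hc : ∀ g ∈ W, ∀ h ∈ W, c (g * h) = c g + c h) (j : ℤ) : AddSubgroup V where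
  carrier := {v | ∃ g ∈ W, (g = 1 ∨ j < b g) ∧ c g = v}
  zero_mem' := ⟨1, W.one_mem, Or.inl rfl, hc1⟩
  add_mem' := by
    rintro v w ⟨g, hg, hg1, rfl⟩ ⟨h, hh, hh1, rfl⟩
    refine ⟨g * h, W.mul_mem hg hh, ?_, hc g hg h hh⟩
    rcases hg1 with rfl | hg1
    · rw [one_mul]; exact hh1
    rcases hh1 with rfl | hh1
    · rw [mul_one]; exact Or.inr hg1
    by_cases h1 : g = 1
    · rw [h1, one_mul]; exact Or.inr hh1
    by_cases h2 : h = 1
    · rw [h2, mul_one]; exact Or.inr hg1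
    by_cases h3 : g * h = 1
    · exact Or.inl h3
    · exact Or.inr (lt_of_lt_of_le (lt_min hg1 hh1) (hUM.mul g hg h hh h1 h2 h3))
  neg_mem' := by
    rintro v ⟨g, hg, hg1, rfl⟩
    refine ⟨g⁻¹, W.inv_mem hg, ?_, ?_⟩
    · rcases hg1 with rfl | hg1
      · exact Or.inl inv_one
      · by_cases h1 : g = 1
        · exact Or.inl (by rw [h1, inv_one])
        · exact Or.inr (by rw [hUM.inv g hg h1]; exact hg1)
    · have h1 := hc g hg g⁻¹ (W.inv_mem hg)
      rw [mul_inv_cancel, hc1] at h1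
      exact (neg_eq_of_add_eq_zero_right h1.symm).symm

theorem coset_const (b : G → ℤ) (W N : Subgroup G) (c : G → V) (D : ℤ) (hUM : UM b W)
    (hNW : N ≤ W) (hN : ∀ g ∈ W, g ∈ N ↔ c g = 0)
    (hc : ∀ g ∈ W, ∀ h ∈ W, c (g * h) = c g + c h) (hsurj : ∀ v, ∃ g ∈ W, c g = v)
    (hdual : ∀ (S : AddSubgroup V) (v : V), v ∉ S → ∃ A : Subgroup G, N ≤ A ∧ A ≤ W ∧
      (∀ g ∈ W, c g ∈ S → g ∈ A) ∧ ∀ g ∈ W, c g = v → g ∉ A ∧
        sm b {x | g⁻¹ * x ∈ A} = Nat.card A * D) :
    ∀ g ∈ W, g ∉ N → sm b {x | g⁻¹ * x ∈ N} = Nat.card N * D := by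
  classical
  intro g₁ hg₁ hg₁N
  have hc1 : c 1 = 0 := (hN 1 W.one_mem).1 N.one_mem
  have hcinv : ∀ g ∈ W, c g⁻¹ = -c g := by
    intro g hg
    have h1 := hc g hg g⁻¹ (W.inv_mem hg)
    rw [mul_inv_cancel, hc1] at h1
    exact (neg_eq_of_add_eq_zero_right h1.symm).symm
  -- the critical value
  have hex : ∃ j : ℕ, Vj b W c hUM hc1 hc (j : ℤ) ≠ ⊤ := by
    obtain ⟨M, hM⟩ : ∃ M : ℕ, ∀ g : G, b g ≤ M := by
      obtain ⟨g, -, hg⟩ := Finset.exists_max_image (univ : Finset G) b ⟨1, mem_univ _⟩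
      exact ⟨(b g).toNat, fun x => (hg x (mem_univ _)).trans (Int.self_le_toNat _)⟩
    refine ⟨M, fun h => ?_⟩
    have h1 : c g₁ ∈ Vj b W c hUM hc1 hc (M : ℤ) := by rw [h]; exact AddSubgroup.mem_top _
    obtain ⟨g, hg, hg1, hcg⟩ := h1
    rcases hg1 with rfl | hg1
    · rw [hc1] at hcg
      exact hg₁N ((hN g₁ hg₁).2 hcg.symm)
    · exact absurd (hM g) (not_le.2 hg1)
  obtain ⟨j₀, hj₀, hmin⟩ : ∃ j₀ : ℕ, Vj b W c hUM hc1 hc (j₀ : ℤ) ≠ ⊤ ∧
      ∀ i < j₀, Vj b W c hUM hc1 hc (i : ℤ) = ⊤ :=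
    ⟨Nat.find hex, Nat.find_spec hex, fun i hi => by
      by_contra h
      exact Nat.find_min hex hi h⟩
  have hj1 : 1 ≤ j₀ := by
    rcases Nat.eq_zero_or_pos j₀ with h | h
    · exfalso
      apply hj₀
      rw [h, eq_top_iff]
      intro v _
      obtain ⟨g, hg, hcg⟩ := hsurj v
      refine ⟨g, hg, ?_, hcg⟩
      by_cases h1 : g = 1
      · exact Or.inl h1
      · right
        have := hUM.pos g hg h1
        push_cast
        omega
    · exact h
  -- for `w ∉ N` there is `x` in the coset of depth at least `j₀`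
  have hx : ∀ w ∈ W, w ∉ N → ∃ x ∈ W, x ≠ 1 ∧ (j₀ : ℤ) ≤ b x ∧ c x = c w := by
    intro w hw hwN
    have h1 : c w ∈ Vj b W c hUM hc1 hc ((j₀ - 1 : ℕ) : ℤ) := by
      rw [hmin (j₀ - 1) (by omega)]
      exact AddSubgroup.mem_top _
    obtain ⟨x, hx, hx1, hcx⟩ := h1
    have hx1' : x ≠ 1 := by
      rintro rfl
      rw [hc1] at hcx
      exact hwN ((hN w hw).2 hcx.symm)
    refine ⟨x, hx, hx1', ?_, hcx⟩
    have h2 := hx1.resolve_left hx1'
    rw [Nat.cast_sub hj1] at h2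
    push_cast at h2
    omega
  -- the sum over the coset of `x`
  have hcos : ∀ w ∈ W, ∀ x ∈ W, c x = c w →
      sm b {y | w⁻¹ * y ∈ N} = ∑ n ∈ univ.filter (fun n => n ∈ N), b (x * n) := by
    intro w hw x hx hcx
    rw [← sm_coset]
    congr 1
    ext y
    simp only [Set.mem_ofPred_eq]
    have h1 : w⁻¹ * x ∈ N := by
      rw [hN _ (W.mul_mem (W.inv_mem hw) hx), hc _ (W.inv_mem hw) _ hx, hcinv w hw, hcx,
        neg_add_cancel]
    constructor
    · intro h
      have h2 := N.mul_mem (N.inv_mem h1) h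
      rwa [mul_inv_rev, inv_inv, mul_assoc, mul_inv_cancel_left] at h2
    · intro h
      have h2 := N.mul_mem h1 h
      rwa [mul_assoc, mul_inv_cancel_left] at h2
  obtain ⟨hh, hhdef⟩ : ∃ hh : ℤ, hh = ∑ n ∈ univ.filter (fun n : G => n ∈ N),
      (if n = 1 then (j₀ : ℤ) else min (j₀ : ℤ) (b n)) := ⟨_, rfl⟩
  have hxn : ∀ x ∈ W, x ∉ N → ∀ n ∈ N, x * n ≠ 1 := by
    intro x _ hxN n hn h
    apply hxN
    have : x = n⁻¹ := eq_inv_of_mul_eq_one_left h
    rw [this]
    exact N.inv_mem hn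
  have hlow : ∀ w ∈ W, w ∉ N → hh ≤ sm b {y | w⁻¹ * y ∈ N} := by
    intro w hw hwN
    obtain ⟨x, hxW, hx1, hjx, hcx⟩ := hx w hw hwN
    have hxN : x ∉ N := fun h => hwN ((hN w hw).2 (by rw [← hcx]; exact (hN x hxW).1 h))
    rw [hcos w hw x hxW hcx, hhdef]
    refine Finset.sum_le_sum fun n hn => ?_
    have hnN : n ∈ N := (Finset.mem_filter.1 hn).2
    split_ifs with h1
    · rw [h1, mul_one]; exact hjx
    · have h2 := hUM.mul x hxW n (hNW hnN) hx1 h1 (hxn x hxW hxN n hnN)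
      exact (min_le_min_right _ hjx).trans h2
  have hup : ∀ w ∈ W, c w ∉ Vj b W c hUM hc1 hc (j₀ : ℤ) → sm b {y | w⁻¹ * y ∈ N} ≤ hh := by
    intro w hw hwV
    have hwN : w ∉ N := by
      intro h
      apply hwV
      rw [(hN w hw).1 h]
      exact AddSubgroup.zero_mem _
    obtain ⟨x, hxW, hx1, hjx, hcx⟩ := hx w hw hwN
    have hxN : x ∉ N := fun h => hwN ((hN w hw).2 (by rw [← hcx]; exact (hN x hxW).1 h))
    have hle : ∀ y ∈ W, c y = c w → b y ≤ j₀ := by
      intro y hy hcy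
      by_contra h
      exact hwV ⟨y, hy, Or.inr (not_le.1 h), hcy⟩
    rw [hcos w hw x hxW hcx, hhdef]
    refine Finset.sum_le_sum fun n hn => ?_
    have hnN : n ∈ N := (Finset.mem_filter.1 hn).2
    have hnW := hNW hnN
    have h3 : b (x * n) ≤ j₀ := by
      refine hle _ (W.mul_mem hxW hnW) ?_
      rw [hc x hxW n hnW, (hN n hnW).1 hnN, add_zero, hcx]
    split_ifs with h1
    · exact h3
    · refine le_min h3 ?_
      by_contra h4
      rw [not_le] at h4
      have h5 := hUM.mul x⁻¹ (W.inv_mem hxW) (x * n) (W.mul_mem hxW hnW) (inv_ne_one.2 hx1)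
        (hxn x hxW hxN n hnN) (by rw [inv_mul_cancel_left]; exact h1)
      rw [inv_mul_cancel_left, hUM.inv x hxW hx1] at h5
      have h6 : b (x * n) ≤ min (b x) (b (x * n)) := le_min (h3.trans hjx) le_rfl
      exact absurd (h6.trans h5) (not_le.2 h4)
  -- the value of `hh`
  have hval : hh = Nat.card N * D := by
    obtain ⟨v₁, hv₁⟩ : ∃ v, v ∉ Vj b W c hUM hc1 hc (j₀ : ℤ) := by
      by_contra h
      push Not at h
      exact hj₀ (eq_top_iff.2 fun v _ => h v)
    obtain ⟨A, hNA, hAW, hAS, hAv⟩ := hdual _ v₁ hv₁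
    obtain ⟨g, hg, hcg⟩ := hsurj v₁
    obtain ⟨hgA, hsum⟩ := hAv g hg hcg
    have h1 := sum_double b N A hNA g
    rw [hsum] at h1
    have h2 : sm (fun x => sm b {y | x⁻¹ * y ∈ N}) {x | g⁻¹ * x ∈ A} = Nat.card A * hh := by
      rw [sm_coset, ← card_filter A, ← nsmul_eq_mul, ← Finset.sum_const]
      refine Finset.sum_congr rfl fun n hn => ?_
      have hnA : n ∈ A := (Finset.mem_filter.1 hn).2
      have hgn : g * n ∈ W := W.mul_mem hg (hAW hnA)
      have hgnV : c (g * n) ∉ Vj b W c hUM hc1 hc (j₀ : ℤ) := by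
        intro h
        apply hgA
        have h3 := A.mul_mem (hAS _ hgn h) (A.inv_mem hnA)
        rwa [mul_inv_cancel_right] at h3
      have hgnN : g * n ∉ N := by
        intro h
        apply hgnV
        rw [(hN _ hgn).1 h]
        exact AddSubgroup.zero_mem _
      exact le_antisymm (hup _ hgn hgnV) (hlow _ hgn hgnN)
    rw [h2] at h1
    have hA0 : (0 : ℤ) < Nat.card A := by exact_mod_cast Nat.card_pos
    have h3 : (Nat.card A : ℤ) * hh = Nat.card A * (Nat.card N * D) := by rw [h1]; ring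
    exact mul_left_cancel₀ hA0.ne' h3
  -- all the sums
  obtain ⟨A, hNA, hAW, -, hAv⟩ := hdual ⊥ (c g₁) (fun h => hg₁N ((hN g₁ hg₁).2 h))
  obtain ⟨hgA, hsum⟩ := hAv g₁ hg₁ rfl
  have h1 := sum_double b N A hNA g₁
  rw [hsum, sm_coset] at h1
  have h2 : ∑ n ∈ univ.filter (fun n : G => n ∈ A),
      (sm b {y | (g₁ * n)⁻¹ * y ∈ N} - hh) = 0 := by
    rw [Finset.sum_sub_distrib, h1, Finset.sum_const, nsmul_eq_mul, card_filter, hval]
    ring
  have h3 := (Finset.sum_eq_zero_iff_of_nonneg (fun n hn => by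
    have hnA : n ∈ A := (Finset.mem_filter.1 hn).2
    have hgn : g₁ * n ∈ W := W.mul_mem hg₁ (hAW hnA)
    have hgnN : g₁ * n ∉ N := by
      intro h
      apply hgA
      have h3 := A.mul_mem (hNA h) (A.inv_mem hnA)
      rwa [mul_inv_cancel_right] at h3
    exact sub_nonneg.2 (hlow _ hgn hgnN))).1 h2 1
    (Finset.mem_filter.2 ⟨mem_univ _, A.one_mem⟩)
  rw [mul_one] at h3
  rw [← hval]
  linarith

end grp

end UMRH

open UMRH in
theorem umr_thm (hHBX : S_HBX) (hTOT : S_TOT) (hUQM : S_UQM) (hCMB : S_CMB) (hUMW : S_UMW)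
    (hSUB : S_SUB) : S_UMR := by
  classical
  intro p k F L G _ _ _ _ _ _ _ _ f q r D P ρ W N c Z Da hp hch hf hq hF hr hinj hram hNW hN hc
    hact hDa
  have : Fact p.Prime := ⟨hp⟩
  have : CharP L p := charP_of_injective_algebraMap (algebraMap k L).injective p
  have : CharP F p := (algebraMap F k).charP (algebraMap F k).injective p
  have : Finite F := by
    refine Nat.finite_of_card_ne_zero ?_
    rw [hF, hq]
    exact pow_ne_zero _ hp.ne_zero
  let _ : Algebra (ZMod p) F := ZMod.algebra F p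
  -- the depth function
  obtain ⟨W₁, I₁, hW₁, -, -, -⟩ := hSUB k L G P ρ
  have hWW₁ : W ≤ W₁ := fun g hg => by
    have h1 := hram g hg
    rwa [← hW₁] at h1
  have hUM₁ := hUMW k L G P ρ W₁ hinj hW₁
  have hUM : UM (fun g => P.b (ρ g)) W :=
    ⟨fun g hg => hUM₁.pos g (hWW₁ hg), fun g hg => hUM₁.inv g (hWW₁ hg),
      fun g hg g' hg' => hUM₁.mul g (hWW₁ hg) g' (hWW₁ hg')⟩
  have hfix : ∀ g ∈ W, Fixes P (ρ g) := fun g hg => (hram g hg).1
  have hc1 : c 1 = 0 := (hN 1 W.one_mem).1 N.one_mem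
  have hcinv : ∀ g ∈ W, c g⁻¹ = -c g := by
    intro g hg
    have h1 := hc g hg g⁻¹ (W.inv_mem hg)
    rw [mul_inv_cancel, hc1] at h1
    exact (neg_eq_of_add_eq_zero_right h1.symm).symm
  have hW0 : (0 : ℤ) < Nat.card W := by exact_mod_cast Nat.card_pos
  have hp0 : (0 : ℤ) < p := by exact_mod_cast hp.pos
  -- the generators
  have hY : ∀ a : Fin r → F, a ≠ 0 → ∃ Y : L, Y ≠ 0 ∧
      (p : ℤ) * P.ord Y = -((Da a * Nat.card W : ℕ) : ℤ) ∧ ∀ g ∈ W, ρ g Y = Y +
        algebraMap k L (algebraMap F k (algebraMap (ZMod p) F (psi p a (c g)))) := by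
    intro a ha
    obtain ⟨Y, hY1, hY2⟩ := as_gen (p := p) hq hF ρ W c Z hact a
    obtain ⟨h1, h2, h3, g, hg, hg0, hgord⟩ := hDa a ha
    have h4 : (Y - g) ^ p - (Y - g) = ∑ i, cst k F L (a i) * (Z i ^ q - Z i) - (g ^ p - g) := by
      rw [sub_pow_char, ← hY1]
      ring
    obtain ⟨h5, h6⟩ := as_ord P hp.two_le h4 hg0 (by
      rw [hgord]
      have h7 : 0 < Da a * Nat.card W := Nat.mul_pos h1 Nat.card_pos
      have : (0 : ℤ) < ((Da a * Nat.card W : ℕ) : ℤ) := by exact_mod_cast h7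
      linarith)
    refine ⟨Y - g, h5, h6.trans hgord, fun w hw => ?_⟩
    rw [map_sub, hY2 w hw, hg w hw]
    ring
  have hmove : ∀ a : Fin r → F, a ≠ 0 → ∃ g ∈ W, psi p a (c g) ≠ 0 := by
    intro a ha
    by_contra h
    push Not at h
    obtain ⟨Y, hY0, hYord, hYact⟩ := hY a ha
    obtain ⟨m, hm⟩ := hTOT k L G P ρ W hinj hfix Y hY0 (fun g hg => by
      rw [hYact g hg, h g hg, map_zero, map_zero, map_zero, add_zero])
    rw [hm] at hYord
    push_cast at hYord
    have h2 : (p : ℤ) * m = -(Da a : ℤ) := by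
      have h3 : (Nat.card W : ℤ) * (p * m) = Nat.card W * (-(Da a : ℤ)) := by linarith
      exact mul_left_cancel₀ hW0.ne' h3
    apply (hDa a ha).2.1
    have h3 : (p : ℤ) ∣ Da a := ⟨-m, by linarith⟩
    exact_mod_cast h3
  have hane : ∀ (a v : Fin r → F), psi p a v ≠ 0 → a ≠ 0 := by
    rintro a v h rfl
    exact h (psi_zero_left p v)
  -- surjectivity
  have hsurj : ∀ v : Fin r → F, ∃ g ∈ W, c g = v := by
    let S : AddSubgroup (Fin r → F) :=
      { carrier := {v | ∃ g ∈ W, c g = v}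
        zero_mem' := ⟨1, W.one_mem, hc1⟩
        add_mem' := by
          rintro _ _ ⟨g, hg, rfl⟩ ⟨g', hg', rfl⟩
          exact ⟨g * g', W.mul_mem hg hg', hc g hg g' hg'⟩
        neg_mem' := by
          rintro _ ⟨g, hg, rfl⟩
          exact ⟨g⁻¹, W.inv_mem hg, hcinv g hg⟩ }
    intro v
    by_contra hv
    obtain ⟨a, ha1, ha2⟩ := psi_dual p S v hv
    obtain ⟨g, hg, hg1⟩ := hmove a (hane a v ha2)
    exact hg1 (ha1 _ ⟨g, hg, rfl⟩)
  -- the subgroups
  let A : (Fin r → F) → Subgroup G := fun a =>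
    { carrier := {g | g ∈ W ∧ psi p a (c g) = 0}
      one_mem' := ⟨W.one_mem, by rw [hc1, psi_zero]⟩
      mul_mem' := by
        rintro g g' ⟨hg, hg1⟩ ⟨hg', hg1'⟩
        exact ⟨W.mul_mem hg hg', by rw [hc g hg g' hg', psi_add, hg1, hg1', add_zero]⟩
      inv_mem' := by
        rintro g ⟨hg, hg1⟩
        exact ⟨W.inv_mem hg, by rw [hcinv g hg, psi_neg, hg1, neg_zero]⟩ }
  have hA : ∀ a g, g ∈ A a ↔ g ∈ W ∧ psi p a (c g) = 0 := fun a g => Iff.rfl
  have hAW : ∀ a, A a ≤ W := fun a g hg => ((hA a g).1 hg).1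
  have hcard : ∀ a, a ≠ 0 → Nat.card W = p * Nat.card (A a) := by
    intro a ha
    let φ : W →* Multiplicative (ZMod p) :=
      { toFun := fun g => Multiplicative.ofAdd (psi p a (c g))
        map_one' := by
          rw [OneMemClass.coe_one, hc1, psi_zero]
          rfl
        map_mul' := fun g h => by
          rw [Subgroup.coe_mul, hc g g.2 h h.2, psi_add]
          rfl }
    have hM : Nat.card (Multiplicative (ZMod p)) = p := by
      rw [Nat.card_congr Multiplicative.toAdd, Nat.card_zmod]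
    have hs : Function.Surjective φ := by
      rw [← MonoidHom.range_eq_top]
      have h3 := Subgroup.card_subgroup_dvd_card φ.range
      rw [hM] at h3
      rcases (Nat.dvd_prime hp).1 h3 with h4 | h4
      · exfalso
        have h5 := Subgroup.eq_bot_of_card_eq _ h4
        obtain ⟨g, hg, hg1⟩ := hmove a ha
        have h6 : φ ⟨g, hg⟩ ∈ φ.range := ⟨_, rfl⟩
        rw [h5, Subgroup.mem_bot] at h6
        exact hg1 h6
      · exact Subgroup.eq_top_of_card_eq _ (h4.trans hM.symm)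
    have h1 := card_ker W (A a) φ hs (fun g => by
      rw [hA]
      constructor
      · rintro ⟨h1, h2⟩
        exact ⟨h1, h2⟩
      · rintro ⟨h1, h2⟩
        exact ⟨h1, h2⟩)
    rwa [hM] at h1
  have hnormal : ∀ a, ∀ g ∈ W, ∀ n ∈ A a, g * n * g⁻¹ ∈ A a := by
    intro a g hg n hn
    obtain ⟨hn1, hn2⟩ := (hA a n).1 hn
    refine (hA a _).2 ⟨W.mul_mem (W.mul_mem hg hn1) (W.inv_mem hg), ?_⟩
    rw [hc _ (W.mul_mem hg hn1) _ (W.inv_mem hg), hc g hg n hn1, hcinv g hg, psi_add, psi_add,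
      psi_neg, hn2]
    ring
  have hval : ∀ x : ZMod p, x ≠ 0 → algebraMap F k (algebraMap (ZMod p) F x) ≠ 0 := by
    intro x hx h
    exact hx ((map_eq_zero _).1 ((map_eq_zero _).1 h))
  have hsum : ∀ a, a ≠ 0 → ∀ g ∈ W, g ∉ A a → sm (fun x => P.b (ρ x)) {x | g⁻¹ * x ∈ A a} =
      Nat.card (A a) * (Da a : ℤ) := by
    intro a ha g hg hgA
    have hg1 : psi p a (c g) ≠ 0 := fun h => hgA ((hA a g).2 ⟨hg, h⟩)
    obtain ⟨Y, hY0, hYord, hYact⟩ := hY a ha
    obtain ⟨h1, h2, -, -⟩ := hDa a ha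
    refine hHBX p k L G P ρ (A a) W g Y
      (algebraMap F k (algebraMap (ZMod p) F (psi p a (c g)))) (Da a) hp hch hinj (hAW a) hram
      (hnormal a) hg hgA (fun n hn => ?_) hY0 (hval _ hg1) (hYact g hg) ?_ h2 h1
    · obtain ⟨hn1, hn2⟩ := (hA a n).1 hn
      rw [hYact n hn1, hn2, map_zero, map_zero, map_zero, add_zero]
    · rw [hcard a ha] at hYord
      push_cast at hYord ⊢
      have h3 : (p : ℤ) * P.ord Y = p * (-((Da a : ℤ) * (Nat.card (A a) : ℤ))) := by
        rw [hYord]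
        ring
      exact mul_left_cancel₀ hp0.ne' h3
  refine ⟨?_, hsurj, ?_, ?_⟩
  · let χ : W →* Multiplicative (Fin r → F) :=
      { toFun := fun g => Multiplicative.ofAdd (c g)
        map_one' := by
          rw [OneMemClass.coe_one, hc1]
          rfl
        map_mul' := fun g h => by
          rw [Subgroup.coe_mul, hc g g.2 h h.2]
          rfl }
    have h1 := card_ker W N χ (fun v => by
      obtain ⟨g, hg, hcg⟩ := hsurj (Multiplicative.toAdd v)
      exact ⟨⟨g, hg⟩, congrArg Multiplicative.ofAdd hcg⟩) (fun g => by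
      constructor
      · intro h
        exact ⟨hNW h, (hN g (hNW h)).1 h⟩
      · rintro ⟨h1, h2⟩
        exact (hN g h1).2 h2)
    rw [h1, Nat.card_congr (Multiplicative.toAdd : Multiplicative (Fin r → F) ≃ (Fin r → F)),
      Nat.card_fun, hF, Nat.card_eq_fintype_card, Fintype.card_fin]
  · intro hall
    refine coset_const (fun x => P.b (ρ x)) W N c D hUM hNW hN hc hsurj fun S v hv => ?_
    obtain ⟨a, ha1, ha2⟩ := psi_dual p S v hv
    have ha := hane a v ha2
    refine ⟨A a, fun g hg => (hA a g).2 ⟨hNW hg, ?_⟩, hAW a, fun g hg hgS =>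
      (hA a g).2 ⟨hg, ha1 _ hgS⟩, fun g hg hcg => ?_⟩
    · rw [(hN g (hNW hg)).1 hg, psi_zero]
    · have hgA : g ∉ A a := fun h => ha2 (by rw [← hcg]; exact ((hA a g).1 h).2)
      refine ⟨hgA, ?_⟩
      rw [hsum a ha g hg hgA, hall a ha]
  · rintro rfl ⟨a', ha', hDa'⟩
    obtain ⟨w, hw, hcw⟩ := hsurj (fun _ => 1)
    have hw1 : w ≠ 1 := by
      rintro rfl
      rw [hc1] at hcw
      have h1 := congrFun hcw ⟨0, hr⟩
      exact zero_ne_one h1
    obtain ⟨g₀, hg₀, hg₀max⟩ := Finset.exists_max_image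
      (univ.filter fun g : G => g ∈ W ∧ g ≠ 1) (fun g => P.b (ρ g))
      ⟨w, Finset.mem_filter.2 ⟨mem_univ _, hw, hw1⟩⟩
    obtain ⟨-, hg₀W, hg₀1⟩ := Finset.mem_filter.1 hg₀
    have hL : IsLst (fun g => P.b (ρ g)) W (P.b (ρ g₀)) :=
      ⟨⟨g₀, hg₀W, hg₀1, rfl⟩, fun g hg hg1 =>
        hg₀max g (Finset.mem_filter.2 ⟨mem_univ _, hg, hg1⟩)⟩
    refine ⟨P.b (ρ g₀), hL, ?_⟩
    -- the upper bound
    obtain ⟨a, -, ha2⟩ := psi_dual p ⊥ (c g₀) (fun h => hg₀1 ((hN g₀ hg₀W).2 h))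
    have ha := hane a _ ha2
    have hg₀A : g₀ ∉ A a := fun h => ha2 ((hA a g₀).1 h).2
    have hU := (hCMB p G _ (A a) W (Da a) _ hp hUM (hAW a) (hcard a ha) (hsum a ha) hL).2
      ⟨g₀, hg₀W, hg₀A, rfl⟩
    have hle : U (fun g => P.b (ρ g)) W (P.b (ρ g₀)) ≤ D := by
      rw [hU]
      exact_mod_cast (hDa a ha).2.2.1
    -- the lower bound
    obtain ⟨g₁, hg₁, hg₁1⟩ := hmove a' ha'
    have hg₁A : g₁ ∉ A a' := fun h => hg₁1 ((hA a' g₁).1 h).2
    have h1 := hUQM G (fun g => P.b (ρ g)) (fun _ => (D : ℤ)) (A a') W _ g₁ hUM (hAW a')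
      (hnormal a') (fun g hg hgA => by rw [hsum a' ha' g hg hgA, hDa']) hL hg₁ hg₁A
    rw [sm_const (D : ℤ) W (A a') (hAW a')] at h1
    have h2 : ((Nat.card W * D : ℤ) : ℚ) ≤
        (Nat.card W : ℚ) * U (fun g => P.b (ρ g)) W (P.b (ρ g₀)) := by
      refine le_trans (le_of_eq ?_) h1
      push_cast
      ring
    have h3 : (0 : ℚ) < Nat.card W := by exact_mod_cast Nat.card_pos
    push_cast at h2
    exact le_antisymm hle (le_of_mul_le_mul_left h2 h3)

end Pool.CND
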